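import Mathlib

namespace Pool.Agent.Results.MP_82af14_an.Sphere

open Set Real
open scoped RealInnerProductSpace

abbrev E := EuclideanSpace ℝ (Fin 4)

/-- smooth, fibrewise strictly convex, uniformly superlinear over the unit sphere -/
def Tonelli (L : E → E → ℝ) : Prop :=
  ContDiff ℝ ⊤ (fun p : E × E => L p.1 p.2) ∧
  (∀ x v w, w ≠ 0 → 0 < fderiv ℝ (fun u => fderiv ℝ (L x) u w) v w) ∧
  ∀ K, ∃ R, ∀ x v, ‖x‖ = 1 → R ≤ ‖v‖ → K * ‖v‖ ≤ L x v

/-- a solution on `[0,T]` of the Euler-Lagrange equation of `L` restricted to `T S^3`, energy `h` -/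
def Traj (L : E → E → ℝ) (h T : ℝ) (γ : ℝ → E) : Prop :=
  ∃ γ' : ℝ → E, ∀ t ∈ Icc 0 T, ‖γ t‖ = 1 ∧ HasDerivAt γ (γ' t) t ∧
    fderiv ℝ (L (γ t)) (γ' t) (γ' t) - L (γ t) (γ' t) = h ∧
    ∃ p : E →L[ℝ] ℝ, HasDerivAt (fun s => fderiv ℝ (L (γ s)) (γ' s)) p t ∧
      ∀ w, ⟪γ t, w⟫ = 0 → p w = fderiv ℝ (fun x => L x (γ' t)) (γ t) w

/-- the set of `k` whose infimum is the critical value -/
def Crit (L : E → E → ℝ) : Set ℝ :=
  {k | ∀ T > 0, ∀ γ : ℝ → E, AbsolutelyContinuousOnInterval γ 0 T → γ 0 = γ T →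
    (∀ t ∈ Icc 0 T, ‖γ t‖ = 1) → 0 ≤ ∫ t in (0 : ℝ)..T, (L (γ t) (deriv γ t) + k)}

/-- energies at which some point is joined to every point -/
def Conn (L : E → E → ℝ) : Set ℝ :=
  {h | ∃ x : E, ‖x‖ = 1 ∧ ∀ y : E, ‖y‖ = 1 → ∃ T > 0, ∃ γ, Traj L h T γ ∧ γ 0 = x ∧ γ T = y}

noncomputable def R (a b c d : ℝ) : E →L[ℝ] E := LinearMap.toContinuousLinearMap
  { toFun u := !₂[a * u 0 - b * u 1, b * u 0 + a * u 1, c * u 2 - d * u 3, d * u 2 + c * u 3]
    map_add' u v := by ext i; fin_cases i <;> simp <;> ring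
    map_smul' u v := by ext i; fin_cases i <;> simp <;> ring }

lemma R_ap (a b c d : ℝ) (u : E) : R a b c d u =
    !₂[a * u 0 - b * u 1, b * u 0 + a * u 1, c * u 2 - d * u 3, d * u 2 + c * u 3] := rfl

lemma inn (u v : E) : ⟪u, v⟫ = u 0 * v 0 + u 1 * v 1 + u 2 * v 2 + u 3 * v 3 := by
  simp [PiLp.inner_apply, Fin.sum_univ_four, mul_comm]

noncomputable def φ (t : ℝ) := R (cos t) (sin t) (cos (2 * t)) (sin (2 * t))
noncomputable def A := R 0 1 0 2

lemma φ_inn (t : ℝ) (u v : E) : ⟪φ t u, φ t v⟫ = ⟪u, v⟫ := by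
  simp only [inn, φ, R_ap]
  simp
  linear_combination (u 0 * v 0 + u 1 * v 1) * cos_sq_add_sin_sq t +
    (u 2 * v 2 + u 3 * v 3) * cos_sq_add_sin_sq (2 * t)

lemma φ_norm (t : ℝ) (u : E) : ‖φ t u‖ = ‖u‖ := by
  simp only [norm_eq_sqrt_real_inner, φ_inn]

lemma φ_A (t : ℝ) (u : E) : A (φ t u) = φ t (A u) := by
  ext i; fin_cases i <;> simp [φ, A, R_ap] <;> ring

lemma skew (u v : E) : ⟪A u, v⟫ = -⟪u, A v⟫ := by
  simp [inn, A, R_ap]; ring

lemma φ_neg (t : ℝ) (u : E) : φ t (φ (-t) u) = u := by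
  have h1 := cos_sq_add_sin_sq t
  have h2 := cos_sq_add_sin_sq (2 * t)
  ext i; fin_cases i <;> simp [φ, R_ap] <;> grind

lemma φ_per (t : ℝ) (n : ℤ) : φ (t + n * (2 * π)) = φ t := by
  have : 2 * (t + n * (2 * π)) = 2 * t + (2 * n : ℤ) * (2 * π) := by push_cast; ring
  simp only [φ, this, cos_add_int_mul_two_pi, sin_add_int_mul_two_pi]

lemma φ_zero (u : E) : φ 0 u = u := by
  ext i; fin_cases i <;> simp [φ, R_ap]

lemma φ_der {c : ℝ → E} {c' : E} {t : ℝ} (h : HasDerivAt c c' t) :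
    HasDerivAt (fun s => φ s (c s)) (A (φ t (c t)) + φ t c') t := by
  have e : φ = fun s => cos s • R 1 0 0 0 + sin s • R 0 1 0 0 + cos (2 * s) • R 0 0 1 0 +
      sin (2 * s) • R 0 0 0 1 := by
    ext s u i; fin_cases i <;> simp [φ, R_ap] <;> ring
  have h2 := (hasDerivAt_id' t).const_mul 2
  have := (((((hasDerivAt_cos t).smul_const (R 1 0 0 0)).fun_add ((hasDerivAt_sin t).smul_const
    (R 0 1 0 0))).fun_add (h2.cos.smul_const (R 0 0 1 0))).fun_add
    (h2.sin.smul_const (R 0 0 0 1))).clm_apply h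
  rw [e]
  refine this.congr_deriv ?_
  ext i; fin_cases i <;> simp [A, R_ap] <;> ring

noncomputable def L (x v : E) : ℝ := 1 / 2 * ‖v - A x‖ ^ 2

lemma L_v (x v : E) : fderiv ℝ (L x) v = innerSL ℝ (v - A x) := by
  have := (((hasFDerivAt_id v).sub_const (A x)).norm_sq.const_mul (1 / 2)).fderiv
  refine this.trans ?_
  ext; simp

lemma L_x (x v w : E) : fderiv ℝ (fun x => L x v) x w = ⟪A (v - A x), w⟫ := by
  have := ((A.hasFDerivAt.const_sub v (x := x)).norm_sq.const_mul (1 / 2)).fderiv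
  refine (congrArg (· w) this).trans ?_
  rw [skew]; simp [inner_sub_left]

lemma ton : Tonelli L := by
  refine ⟨contDiff_const.mul ((contDiff_snd.sub (A.contDiff.comp contDiff_fst)).norm_sq ℝ),
    fun x v w hw => ?_, fun K => ⟨4 * ‖A‖ + 8 * |K|, fun x v hx hv => ?_⟩⟩
  · have : (fun u => fderiv ℝ (L x) u w) = fun u => innerSL ℝ w u - ⟪w, A x⟫ := by
      ext u; simp [L_v, real_inner_comm]
    rw [this, ((innerSL ℝ w).hasFDerivAt.sub_const _).fderiv]
    simpa using pow_pos (norm_pos_iff.2 hw) 2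
  · have h1 := A.le_opNorm x
    have h2 := norm_sub_norm_le v (A x)
    have h3 := le_abs_self K
    have h4 := abs_nonneg K
    have h5 := norm_nonneg A
    have h6 : ‖v‖ / 2 ≤ ‖v - A x‖ := by rw [hx] at h1; linarith
    have := pow_le_pow_left₀ (by positivity) h6 2
    unfold L
    nlinarith [norm_nonneg v]

lemma traj {x w : E} (hx : ‖x‖ = 1) (hw : ‖w‖ = 1) (h : ⟪x, w⟫ = 0) (ρ T : ℝ) :
    Traj L (ρ ^ 2 / 2 + ρ * ⟪w, A x⟫) T fun t => φ t (cos (ρ * t) • x + sin (ρ * t) • w) := by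
  have d : ∀ t (u v : E), HasDerivAt (fun t => cos (ρ * t) • u + sin (ρ * t) • v)
      (cos (ρ * t) • ρ • v + sin (ρ * t) • -ρ • u) t := fun t u v => by
    have h2 := (hasDerivAt_id' t).const_mul ρ
    exact ((h2.cos.smul_const u).fun_add (h2.sin.smul_const v)).congr_deriv (by module)
  have h1 : ⟪x, x⟫ = 1 := by rw [real_inner_self_eq_norm_sq, hx, one_pow]
  have h2 : ⟪w, w⟫ = 1 := by rw [real_inner_self_eq_norm_sq, hw, one_pow]
  have h3 : ⟪w, x⟫ = 0 := by rw [real_inner_comm, h]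
  have h4 : ∀ u, ⟪u, A u⟫ = 0 := fun u => by have := skew u u; rw [real_inner_comm] at this; linarith
  have h5 : ⟪x, A w⟫ = -⟪w, A x⟫ := by rw [← skew, real_inner_comm]
  refine ⟨fun t => A (φ t (cos (ρ * t) • x + sin (ρ * t) • w)) +
    φ t (cos (ρ * t) • ρ • w + sin (ρ * t) • -ρ • x), fun t _ => ⟨?_, φ_der (d t x w), ?_, ?_⟩⟩
  · simp only [φ_inn, norm_eq_sqrt_real_inner, inner_add_left, inner_add_right,
      real_inner_smul_left, real_inner_smul_right, h, h1, h2, h3]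
    rw [sqrt_eq_one]
    linear_combination cos_sq_add_sin_sq (ρ * t)
  · simp only [L_v, L, add_sub_cancel_left, innerSL_apply_apply, ← real_inner_self_eq_norm_sq, φ_A,
      inner_add_right, φ_inn]
    simp only [map_add, map_smul, inner_add_left, inner_add_right,
      real_inner_smul_left, real_inner_smul_right, h, h1, h2, h3, h4, h5]
    linear_combination (ρ ^ 2 / 2 + ρ * ⟪w, A x⟫) * cos_sq_add_sin_sq (ρ * t)
  · simp only [L_v, add_sub_cancel_left]
    refine ⟨_, (innerSL ℝ (E := E)).hasFDerivAt.comp_hasDerivAt t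
      (φ_der (d t (ρ • w) (-ρ • x))), fun u hu => ?_⟩
    have : cos (ρ * t) • ρ • -ρ • x + sin (ρ * t) • -ρ • ρ • w =
        -ρ ^ 2 • (cos (ρ * t) • x + sin (ρ * t) • w) := by module
    rw [L_x, add_sub_cancel_left, innerSL_apply_apply, inner_add_left, this, map_smul,
      real_inner_smul_left, hu, mul_zero, add_zero]

noncomputable def x₀ : E := !₂[3 / 5, 0, 4 / 5, 0]

lemma nrm {u : E} (h : ⟪u, u⟫ = 1) : ‖u‖ = 1 := by rw [norm_eq_sqrt_real_inner, h, sqrt_one]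

lemma x1 : ⟪x₀, x₀⟫ = 1 := by rw [inn]; simp [x₀]; norm_num

lemma reach {y w : E} {T θ : ℝ} (hT : 0 < T) (hw : ‖w‖ = 1) (h : ⟪x₀, w⟫ = 0)
    (e : φ (-T) y = cos θ • x₀ + sin θ • w) (g : θ ^ 2 / 2 + T * θ * ⟪w, A x₀⟫ + T ^ 2 / 50 = 0) :
    ∃ T > 0, ∃ γ, Traj L (-1 / 50) T γ ∧ γ 0 = x₀ ∧ γ T = y := by
  have := traj (nrm x1) hw h (θ / T) T
  rw [show (θ / T) ^ 2 / 2 + θ / T * ⟪w, A x₀⟫ = -1 / 50 by
    field_simp; linear_combination 100 * g] at this
  exact ⟨T, hT, _, this, by simp [φ_zero], by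
    simp only [div_mul_cancel₀ θ hT.ne', ← e, φ_neg]⟩

lemma big {y : E} (hy : ‖y‖ = 1) : ∃ T, 4 * π ≤ T ∧ 3 / 25 ≤ ⟪φ (-T) y, A x₀⟫ ^ 2 := by
  by_contra! h
  have k : ∀ s, s ≤ 0 → (3 / 5 * (sin s * y 0 + cos s * y 1) +
      8 / 5 * (sin (2 * s) * y 2 + cos (2 * s) * y 3)) ^ 2 < 3 / 25 := fun s hs => by
    have := h (4 * π - s) (by linarith)
    rw [show -(4 * π - s) = s + (-2 : ℤ) * (2 * π) by push_cast; ring, φ_per] at this
    refine lt_of_eq_of_lt (congrArg (· ^ 2) ?_) this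
    rw [inn]; simp [φ, A, R_ap, x₀]; ring
  have p := pi_pos
  have k1 := k 0 le_rfl
  have k2 := k (-π) (by linarith)
  have k3 := k (-(π / 2)) (by linarith)
  have k4 := k (-(π / 2) - π) (by linarith)
  have k5 := k (-(π / 4)) (by linarith)
  have k6 := k (-(π / 4) - π) (by linarith)
  have e1 : 2 * (π / 2) = π := by ring
  have e2 : 2 * (π / 4) = π / 2 := by ring
  have n := inn y y
  rw [real_inner_self_eq_norm_sq, hy] at n
  simp [mul_sub, e1, e2] at k1 k2 k3 k4 k5 k6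
  nlinarith [sq_nonneg (3 / 5 * (-(√2 / 2 * y 0) + √2 / 2 * y 1)), sq_nonneg (y 2), sq_nonneg (y 3)]

lemma conn : -1 / 50 ∈ Conn L := by
  refine ⟨x₀, nrm x1, fun y hy => ?_⟩
  have p := pi_pos
  let a : ℝ → ℝ := fun T => ⟪x₀, φ (-T) y⟫
  have cz : Continuous fun T => φ (-T) y :=
    (continuous_iff_continuousAt.2 fun t => (φ_der (hasDerivAt_const t y)).continuousAt).comp
      continuous_neg
  have zz : ∀ T, ⟪φ (-T) y, φ (-T) y⟫ = 1 := fun T => by
    rw [φ_inn, real_inner_self_eq_norm_sq, hy, one_pow]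
  have n : ∀ T, ‖φ (-T) y - a T • x₀‖ = sin (arccos (a T)) := fun T => by
    simp only [sin_arccos, norm_eq_sqrt_real_inner, inner_sub_left, inner_sub_right,
      real_inner_smul_left, real_inner_smul_right, zz, x1, real_inner_comm x₀, a]
    congr 1; ring
  have ca : ∀ T, cos (arccos (a T)) = a T := fun T => by
    have := abs_real_inner_le_norm x₀ (φ (-T) y)
    rw [φ_norm, hy, nrm x1, one_mul, abs_le] at this
    exact cos_arccos this.1 this.2
  by_cases h : ∃ T, sin (arccos (a T)) = 0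
  · obtain ⟨T₀, h⟩ := h
    obtain ⟨m, hm⟩ := exists_int_gt ((4 * π - T₀) / (2 * π))
    rw [div_lt_iff₀ (by positivity)] at hm
    obtain ⟨T, hT⟩ : ∃ T, T = T₀ + m * (2 * π) := ⟨_, rfl⟩
    obtain ⟨θ, hθ⟩ : ∃ θ, θ = arccos (a T₀) + ⌈(T - arccos (a T₀)) / (2 * π)⌉ * (2 * π) := ⟨_, rfl⟩
    have t1 := (div_le_iff₀ (by positivity)).1 (Int.le_ceil ((T - arccos (a T₀)) / (2 * π)))
    have t2 := (lt_div_iff₀ (by positivity)).1
      (sub_lt_iff_lt_add.2 (Int.ceil_lt_add_one ((T - arccos (a T₀)) / (2 * π))))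
    have t3 : 0 < T := by linarith
    have t4 : T ≤ θ := by linarith
    have t5 : θ ≤ 2 * T := by linarith
    have t6 : 0 < θ := by linarith
    let b := (θ ^ 2 / 2 + T ^ 2 / 50) / (T * θ) * (5 / 8)
    have b0 : 0 ≤ b := by positivity
    have b1 : b ≤ 1 := by
      rw [← le_div_iff₀ (by norm_num), div_le_iff₀ (by positivity)]; nlinarith
    have b2 := sq_sqrt (show 0 ≤ 1 - b ^ 2 by nlinarith)
    refine reach (w := !₂[4 / 5 * √(1 - b ^ 2), 0, -3 / 5 * √(1 - b ^ 2), -b]) (θ := θ) t3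
      (nrm (by rw [inn]; simp; linarith)) (by simp [inn, x₀]; ring) ?_ ?_
    · rw [hθ, cos_add_int_mul_two_pi, sin_add_int_mul_two_pi, h, ca, zero_smul, add_zero, hT,
        show -(T₀ + m * (2 * π)) = -T₀ + (-m : ℤ) * (2 * π) by push_cast; ring, φ_per]
      exact sub_eq_zero.1 (norm_eq_zero.1 ((n T₀).trans h))
    · simp [inn, x₀, A, R_ap, b]
      field_simp; ring
  push Not at h
  obtain ⟨T₁, h1, h2⟩ := big hy
  let w : ℝ → E := fun T => (sin (arccos (a T)))⁻¹ • (φ (-T) y - a T • x₀)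
  have ca' : Continuous a := continuous_const.inner cz
  have cw : Continuous w :=
    ((continuous_sin.comp (continuous_arccos.comp ca')).inv₀ h).smul (cz.sub (ca'.smul continuous_const))
  obtain ⟨k, hk⟩ : ∃ k : ℤ, |arccos (a T₁) + k * (2 * π) + T₁ * ⟪w T₁, A x₀⟫| ≤ π := by
    have := abs_sub_round ((arccos (a T₁) + T₁ * ⟪w T₁, A x₀⟫) / (2 * π))
    refine ⟨-round ((arccos (a T₁) + T₁ * ⟪w T₁, A x₀⟫) / (2 * π)), ?_⟩
    rw [div_sub' (by positivity), abs_div, abs_of_pos (a := 2 * π) (by positivity),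
      div_le_iff₀ (by positivity)] at this
    exact (congrArg abs (by push_cast; ring)).trans_le (this.trans_eq (by ring))
  let G : ℝ → ℝ := fun T => (arccos (a T) + k * (2 * π)) ^ 2 / 2 +
    T * (arccos (a T) + k * (2 * π)) * ⟪w T, A x₀⟫ + T ^ 2 / 50
  have G0 : 0 < G 0 := by
    have : arccos (a 0) + k * (2 * π) ≠ 0 := fun e => h 0 (by
      rw [← sin_add_int_mul_two_pi _ k, e, sin_zero])
    have := sq_pos_of_ne_zero this
    simp only [G]
    linarith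
  have G1 : G T₁ ≤ 0 := by
    have e : sin (arccos (a T₁)) * ⟪w T₁, A x₀⟫ = ⟪φ (-T₁) y, A x₀⟫ := by
      have : ⟪x₀, A x₀⟫ = 0 := by simp [inn, x₀, A, R_ap]
      simp only [w, real_inner_smul_left, inner_sub_left, this, mul_inv_cancel_left₀ (h _)]
      ring
    have q : 3 / 25 ≤ ⟪w T₁, A x₀⟫ ^ 2 := by
      rw [← e, mul_pow] at h2
      nlinarith [sin_sq_le_one (arccos (a T₁)), sq_nonneg ⟪w T₁, A x₀⟫]
    have q1 := sq_le_sq' (abs_le.1 hk).1 (abs_le.1 hk).2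
    have q2 := pow_le_pow_left₀ (by positivity) h1 2
    simp only [G]
    nlinarith [mul_le_mul_of_nonneg_left q (sq_nonneg T₁)]
  obtain ⟨T, ⟨t0, -⟩, hT⟩ := intermediate_value_Icc' (f := G) (by linarith : 0 ≤ T₁)
    (by fun_prop) ⟨G1, G0.le⟩
  refine reach (w := w T) (t0.lt_of_ne fun e => G0.ne' (e ▸ hT)) ?_ ?_ ?_ hT
  · rw [norm_smul, n, norm_inv, norm_of_nonneg (n T ▸ norm_nonneg _), inv_mul_cancel₀ (h _)]
  · simp only [w, real_inner_smul_right, inner_sub_right, x1, a]; ring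
  · rw [cos_add_int_mul_two_pi, sin_add_int_mul_two_pi, ca, smul_inv_smul₀ (h _), add_sub_cancel]

theorem result : ∃ L, Tonelli L ∧ ∃ c, IsLeast (Crit L) c ∧ ∃ h < c, h ∈ Conn L := by
  refine ⟨L, ton, 0, ⟨fun T hT γ _ _ _ => intervalIntegral.integral_nonneg hT.le fun t _ => by
    unfold L; positivity, fun k hk => ?_⟩, _, by norm_num, conn⟩
  have d : ∀ t, HasDerivAt (fun s => φ s x₀) (A (φ t x₀)) t := fun t => by
    simpa using φ_der (hasDerivAt_const t x₀)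
  have := hk (2 * π) (by positivity) (fun s => φ s x₀)
    (ContDiff.contDiffOn (contDiff_euclidean.2 fun i => by
      fin_cases i <;> simp [φ, R_ap] <;> fun_prop)).absolutelyContinuousOnInterval
    (by simpa using congrArg (· x₀) (φ_per 0 1).symm) fun t _ => (φ_norm _ _).trans (nrm x1)
  simp [(d _).deriv, L] at this
  exact nonneg_of_mul_nonneg_right this (by positivity)

end Pool.Agent.Results.MP_82af14_an.Sphere
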